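import Mathlib

namespace Pool.Agent.Results.MP_4402ee_co.Cut

/-- `D` is a dominating set of `G`. -/
def IsDom {V : Type} (G : SimpleGraph V) (D : Finset V) : Prop :=
  ∀ v, v ∉ D → ∃ u ∈ D, G.Adj u v

/-- `D` is a `γ`-set of `G`: a dominating set of minimum size. -/
def IsGam {V : Type} (G : SimpleGraph V) (D : Finset V) : Prop :=
  IsDom G D ∧ ∀ D' : Finset V, IsDom G D' → D.card ≤ D'.card

/-- `G` has two distinct `γ`-sets, while every `G - v` has exactly one. -/
def HypoUD {V : Type} (G : SimpleGraph V) : Prop :=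
  (∃ D D' : Finset V, IsGam G D ∧ IsGam G D' ∧ D ≠ D') ∧
    ∀ v : V, ∃! D, IsGam (G.induce {w | w ≠ v}) D

/-- `G - v` has more connected components than `G`. -/
def CutVertex {V : Type} (G : SimpleGraph V) (v : V) : Prop :=
  Nat.card G.ConnectedComponent < Nat.card (G.induce {w | w ≠ v}).ConnectedComponent

def N (a : ℕ) : ℕ := Nat.mod (Nat.shiftRight 3449434482032249418510515778229298097966984927704787989885952118743910145032845468508524828958983055472404115 (Nat.mul 19 a)) 524288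

def Dm (a : ℕ) : ℕ := [147744, 148224, 147976, 147972, 147616, 147728, 147586, 147474, 147970,
  147462, 393504, 266528, 264480, 82208, 139552, 66848, 9504, 263456, 3360].getD a 0

def M : List (ℕ × ℕ) := [(147744, 1), (148224, 2), (147976, 4), (147972, 8), (147616, 16),
  (147728, 32), (147586, 64), (147474, 128), (147970, 256), (147462, 512), (393504, 1024),
  (266528, 2048), (264480, 4096), (82208, 8192), (139552, 16384), (66848, 32768), (9504, 65536),
  (263456, 131072), (3360, 262144)]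

def f (x s : ℕ) : Bool := M.all fun y => !(Nat.beq (Nat.lor x y.2) 524287) || Nat.beq s y.1

def chk : Bool := (List.range 19).all fun a => (List.range (a + 1)).all fun b =>
  (List.range (b + 1)).all fun c => (List.range (c + 1)).all fun d =>
  f (Nat.lor (Nat.lor (N a) (N b)) (Nat.lor (N c) (N d)))
    (Nat.lor (Nat.lor (2 ^ a) (2 ^ b)) (Nat.lor (2 ^ c) (2 ^ d)))

theorem chk_true : chk = true := by decide +kernel

lemma memM : ∀ a : Fin 19, (Dm a, 2 ^ a.val) ∈ M := by decide +kernel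
lemma Nlt : ∀ a : Fin 19, N a < 2 ^ 19 := by decide +kernel
lemma Nself : ∀ a : Fin 19, (N a).testBit a = true := by decide +kernel

def G : SimpleGraph (Fin 19) where
  Adj a b := a ≠ b ∧ (N a).testBit b = true
  symm := ⟨by decide +kernel⟩
  loopless := ⟨fun _ h => h.1 rfl⟩

instance : DecidableRel G.Adj := fun a b =>
  inferInstanceAs (Decidable (a ≠ b ∧ (N a).testBit b = true))

lemma key (a b c d v : Fin 19) (hb : b ≤ a) (hc : c ≤ b) (hd : d ≤ c)
    (h : ∀ w : Fin 19, w ≠ v → ((N a).testBit w = true ∨ (N b).testBit w = true) ∨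
      ((N c).testBit w = true ∨ (N d).testBit w = true)) (w : Fin 19) :
    ((a = w ∨ b = w) ∨ (c = w ∨ d = w)) ↔ (Dm v).testBit w = true := by
  have h0 := chk_true
  simp only [chk, List.all_eq_true, List.mem_range] at h0
  have h1 := h0 a a.2 b (Nat.lt_succ_of_le hb) c (Nat.lt_succ_of_le hc) d (Nat.lt_succ_of_le hd)
  simp only [f, List.all_eq_true] at h1
  have h2 := h1 _ (memM v)
  have e : Nat.lor (Nat.lor (Nat.lor (N a) (N b)) (Nat.lor (N c) (N d))) (2 ^ v.val) = 524287 := by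
    apply Nat.eq_of_testBit_eq
    intro i
    show (((N a ||| N b) ||| (N c ||| N d)) ||| 2 ^ v.val).testBit i = (2 ^ 19 - 1).testBit i
    rw [Nat.testBit_two_pow_sub_one]
    simp only [Nat.testBit_or, Nat.testBit_two_pow]
    by_cases hi : i < 19
    · by_cases hv : v.val = i
      · simp [hi, hv]
      · have := h ⟨i, hi⟩ (fun e => hv (by rw [← e]))
        simp only [hi, decide_true, Bool.or_eq_true]
        exact Or.inl this
    · have t : ∀ a : Fin 19, (N a).testBit i = false := fun a =>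
        Nat.testBit_lt_two_pow (lt_of_lt_of_le (Nlt a) (Nat.pow_le_pow_right (by norm_num) (by omega)))
      have hv : v.val ≠ i := by have := v.2; omega
      simp [t, hi, hv]
  simp only [e, Nat.beq_refl, Bool.not_true, Bool.false_or, Nat.beq_eq] at h2
  rw [← h2]
  show _ ↔ ((2 ^ a.val ||| 2 ^ b.val) ||| (2 ^ c.val ||| 2 ^ d.val)).testBit w = true
  simp only [Nat.testBit_or, Nat.testBit_two_pow, Bool.or_eq_true, decide_eq_true_eq, Fin.ext_iff]

lemma four (D : Finset (Fin 19)) (h0 : D.Nonempty) (h : D.card ≤ 4) :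
    ∃ a b c d, b ≤ a ∧ c ≤ b ∧ d ≤ c ∧ ∀ w, w ∈ D ↔ ((a = w ∨ b = w) ∨ (c = w ∨ d = w)) := by
  have hl : (D.sort (· ≥ ·)).length ≤ 4 := by rw [Finset.length_sort]; exact h
  have hm : ∀ w, w ∈ D ↔ w ∈ D.sort (· ≥ ·) := fun w => (Finset.mem_sort _).symm
  have hp : (D.sort (· ≥ ·)).Pairwise (· ≥ ·) := Finset.pairwise_sort _ _
  obtain ⟨x, hx⟩ := h0
  rw [hm] at hx
  generalize D.sort (· ≥ ·) = l at hl hm hx hp
  rcases l with _ | ⟨a, _ | ⟨b, _ | ⟨c, _ | ⟨d, _ | ⟨e, l⟩⟩⟩⟩⟩
  · simp at hx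
  · exact ⟨a, a, a, a, le_rfl, le_rfl, le_rfl, fun w => by rw [hm]; simp [eq_comm]⟩
  · simp at hp
    exact ⟨a, b, b, b, hp, le_rfl, le_rfl, fun w => by rw [hm]; simp [eq_comm]⟩
  · simp at hp
    exact ⟨a, b, c, c, hp.1.1, hp.2, le_rfl, fun w => by rw [hm]; simp [eq_comm, or_assoc]⟩
  · simp at hp
    exact ⟨a, b, c, d, hp.1.1, hp.2.1.1, hp.2.2, fun w => by rw [hm]; simp [eq_comm, or_assoc]⟩
  · simp only [List.length_cons] at hl
    omega

lemma bit {u w : Fin 19} (h : u = w ∨ G.Adj u w) : (N u).testBit w = true := by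
  rcases h with rfl | h
  · exact Nself u
  · exact h.2

lemma small (D : Finset (Fin 19)) (v : Fin 19) (h : D.card ≤ 4)
    (hd : ∀ w, w ≠ v → ∃ u ∈ D, u = w ∨ G.Adj u w) (w : Fin 19) :
    w ∈ D ↔ (Dm v).testBit w = true := by
  obtain ⟨w0, hw0⟩ := exists_ne v
  obtain ⟨u0, hu0, -⟩ := hd w0 hw0
  obtain ⟨a, b, c, d, hb, hc, hd', e⟩ := four D ⟨u0, hu0⟩ h
  rw [e]
  apply key a b c d v hb hc hd'
  intro x hx
  obtain ⟨u, hu, hux⟩ := hd x hx
  have := bit hux
  rcases (e u).1 hu with (rfl | rfl) | (rfl | rfl) <;> simp [this]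

lemma five (D : Finset (Fin 19)) (hd : IsDom G D) : 5 ≤ D.card := by
  by_contra hn
  have h' : ∀ v w : Fin 19, w ≠ v → ∃ u ∈ D, u = w ∨ G.Adj u w := by
    intro v w _
    by_cases hw : w ∈ D
    · exact ⟨w, hw, Or.inl rfl⟩
    · obtain ⟨u, hu, h⟩ := hd w hw
      exact ⟨u, hu, Or.inr h⟩
  have h1 := small D 0 (by omega) (h' 0) 5
  have h2 := small D 1 (by omega) (h' 1) 5
  have := h2.1 (h1.2 (by decide))
  exact absurd this (by decide)

def DS (v : Fin 19) : Finset (Fin 19) := Finset.univ.filter fun w => (Dm v).testBit w = true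

lemma DS_ok : ∀ v : Fin 19, (DS v).card = 4 ∧ v ∉ DS v ∧
    ∀ w, w ∉ DS v → w ≠ v → ∃ u ∈ DS v, G.Adj u w := by decide +kernel

lemma hyp2 (v : Fin 19) : ∃! D, IsGam (G.induce {w | w ≠ v}) D := by
  classical
  obtain ⟨c4, hv, hdom⟩ := DS_ok v
  set D0 : Finset {w | w ≠ v} := (DS v).subtype (· ∈ {w | w ≠ v}) with hD0
  have hne : ∀ u ∈ DS v, u ∈ {w | w ≠ v} := fun u hu e => hv (e ▸ hu)
  have card0 : D0.card = 4 := by
    rw [hD0, Finset.card_subtype, Finset.filter_true_of_mem hne, c4]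
  have dom0 : IsDom (G.induce {w | w ≠ v}) D0 := by
    intro w hw
    obtain ⟨u, hu, h⟩ := hdom w.1 (fun h => hw (Finset.mem_subtype.2 h)) w.2
    exact ⟨⟨u, hne u hu⟩, Finset.mem_subtype.2 hu, h⟩
  have uniq : ∀ D : Finset {w | w ≠ v}, IsDom (G.induce {w | w ≠ v}) D → D.card ≤ 4 → D = D0 := by
    intro D hd hc
    have := small (D.map (Function.Embedding.subtype _)) v (by rwa [Finset.card_map]) (by
      intro w hw
      by_cases h : (⟨w, hw⟩ : {w | w ≠ v}) ∈ D
      · exact ⟨w, Finset.mem_map.2 ⟨_, h, rfl⟩, Or.inl rfl⟩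
      · obtain ⟨u, hu, h⟩ := hd _ h
        exact ⟨u.1, Finset.mem_map.2 ⟨_, hu, rfl⟩, Or.inr h⟩)
    ext w
    rw [hD0, Finset.mem_subtype, DS, Finset.mem_filter, ← this w.1]
    constructor
    · intro h
      exact ⟨Finset.mem_univ _, Finset.mem_map.2 ⟨_, h, rfl⟩⟩
    · rintro ⟨-, h⟩
      obtain ⟨u, hu, e⟩ := Finset.mem_map.1 h
      have : u = w := Subtype.ext e
      exact this ▸ hu
  refine ⟨D0, ⟨dom0, fun D hd => ?_⟩, fun D hD => uniq D hD.1 (card0 ▸ hD.2 D0 dom0)⟩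
  by_contra hn
  have := uniq D hd (by omega)
  rw [this] at hn
  exact hn le_rfl

lemma conn : G.Preconnected := by
  have h : ∀ w : Fin 19, w = 0 ∨ G.Adj 0 w ∨ ∃ u, G.Adj 0 u ∧ G.Adj u w := by decide +kernel
  have r : ∀ w : Fin 19, G.Reachable 0 w := by
    intro w
    rcases h w with rfl | h | ⟨u, h1, h2⟩
    · rfl
    · exact h.reachable
    · exact h1.reachable.trans h2.reachable
  exact fun a b => (r a).symm.trans (r b)

lemma cut : CutVertex G 0 := by
  have h1 : Nat.card G.ConnectedComponent ≤ 1 := by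
    have := conn.subsingleton_connectedComponent
    exact Finite.card_le_one_iff_subsingleton.2 this
  have side : ∀ a b : Fin 19, a ≠ 0 → b ≠ 0 → G.Adj a b → (a.val ≤ 9 ↔ b.val ≤ 9) := by
    decide +kernel
  have inv : ∀ a b : {w : Fin 19 | w ≠ 0}, (G.induce {w | w ≠ 0}).Reachable a b →
      (a.1.val ≤ 9 ↔ b.1.val ≤ 9) := by
    rintro a b ⟨p⟩
    induction p with
    | nil => rfl
    | @cons x y _ h _ ih => exact (side x.1 y.1 x.2 y.2 h).trans ih
  have h2 : Nontrivial (G.induce {w | w ≠ 0}).ConnectedComponent := by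
    refine ⟨(G.induce {w | w ≠ 0}).connectedComponentMk ⟨1, by simp⟩,
      (G.induce {w | w ≠ 0}).connectedComponentMk ⟨10, by simp⟩, fun e => ?_⟩
    have := inv _ _ (SimpleGraph.ConnectedComponent.exact e)
    simp at this
  exact lt_of_le_of_lt h1 Finite.one_lt_card

theorem result : ∃ (G : SimpleGraph (Fin 19)) (v : Fin 19), HypoUD G ∧ CutVertex G v := by
  refine ⟨G, 0, ⟨⟨{0, 1, 2, 10, 11}, {0, 1, 2, 10, 13}, ⟨?_, five⟩, ⟨?_, five⟩, by decide⟩, hyp2⟩, cut⟩
  · unfold IsDom; decide +kernel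
  · unfold IsDom; decide +kernel

end Pool.Agent.Results.MP_4402ee_co.Cut
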